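import Pool.Agent.Helper34.FB.Goals

/-!
# Project FB (MP_05c055_al): packet BUILD2

The extension of the linear algebra to the part `W' = H(F' ⊗ k)`, `F' = m ⊗ F`.
-/

set_option autoImplicit false

namespace Pool.Agent.Helper98.FB

open IsLocalRing Pool.Agent.Helper26.DA Pool.Agent.Helper34.FB

universe u v w x

section gen

variable {A : Type u} [CommRing A] [IsLocalRing A] {N : Type w} [AddCommGroup N] [Module A N]

theorem exp_of_mem {e0 : ℕ} (a : Fin e0 → A) (ha : Ideal.span (Set.range a) = maximalIdeal A)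
    (z : N) (hz : z ∈ maximalIdeal A • (⊤ : Submodule A N)) :
    ∃ y : Fin e0 → N, z = ∑ l, a l • y l := by
  rw [← ha] at hz
  refine Submodule.smul_induction_on hz ?_ ?_
  · intro r hr n _
    obtain ⟨c, hc⟩ := Ideal.mem_span_range_iff_exists_fun.1 hr
    refine ⟨fun l => c l • n, ?_⟩
    rw [← hc, Finset.sum_smul]
    refine Finset.sum_congr rfl fun l _ => ?_
    rw [smul_smul, mul_comm]
  · rintro x y ⟨y1, h1⟩ ⟨y2, h2⟩
    refine ⟨fun l => y1 l + y2 l, ?_⟩
    rw [h1, h2, ← Finset.sum_add_distrib]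
    refine Finset.sum_congr rfl fun l _ => ?_
    rw [smul_add]

theorem map_mem {N' : Type w} [AddCommGroup N'] [Module A N'] (f : N →ₗ[A] N') {z : N}
    (hz : z ∈ maximalIdeal A • (⊤ : Submodule A N)) :
    f z ∈ maximalIdeal A • (⊤ : Submodule A N') := by
  have h := Submodule.mem_map_of_mem (f := f) hz
  rw [Submodule.map_smul''] at h
  exact Submodule.smul_mono le_rfl le_top h

theorem prod_mem (z : N × N × N) :
    z ∈ maximalIdeal A • (⊤ : Submodule A (N × N × N)) ↔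
      z.1 ∈ maximalIdeal A • (⊤ : Submodule A N) ∧ z.2.1 ∈ maximalIdeal A • (⊤ : Submodule A N) ∧
        z.2.2 ∈ maximalIdeal A • (⊤ : Submodule A N) := by
  constructor
  · intro h
    exact ⟨map_mem (LinearMap.fst A N (N × N)) h,
      map_mem (LinearMap.fst A N N ∘ₗ LinearMap.snd A N (N × N)) h,
      map_mem (LinearMap.snd A N N ∘ₗ LinearMap.snd A N (N × N)) h⟩
  · rintro ⟨h1, h2, h3⟩
    have e : z = LinearMap.inl A N (N × N) z.1 +
        (LinearMap.inr A N (N × N) ∘ₗ LinearMap.inl A N N) z.2.1 +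
        (LinearMap.inr A N (N × N) ∘ₗ LinearMap.inr A N N) z.2.2 := by
      refine Prod.ext ?_ (Prod.ext ?_ ?_) <;> simp
    rw [e]
    exact add_mem (add_mem (map_mem _ h1) (map_mem _ h2)) (map_mem _ h3)

/-- the differential of `M' = M × M × M` -/
def dP (d X1 X2 : N →ₗ[A] N) : N × N × N →ₗ[A] N × N × N where
  toFun z := (d z.1 - X2 z.2.2, d z.2.1 + X1 z.2.2, - d z.2.2)
  map_add' z z' := by
    refine Prod.ext ?_ (Prod.ext ?_ ?_) <;> simp <;> abel
  map_smul' c z := by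
    refine Prod.ext ?_ (Prod.ext ?_ ?_) <;> simp [smul_sub, smul_add]

omit [IsLocalRing A] in
theorem dP_apply (d X1 X2 : N →ₗ[A] N) (z : N × N × N) :
    dP d X1 X2 z = (d z.1 - X2 z.2.2, d z.2.1 + X1 z.2.2, - d z.2.2) := rfl

theorem dP_dP (d X1 X2 : N →ₗ[A] N) (hd : ∀ z, d (d z) = 0) (h1 : ∀ z, d (X1 z) = X1 (d z))
    (h2 : ∀ z, d (X2 z) = X2 (d z)) (z : N × N × N) : dP d X1 X2 (dP d X1 X2 z) = 0 := by
  rw [dP_apply, dP_apply]
  refine Prod.ext ?_ (Prod.ext ?_ ?_) <;> simp [hd, h1, h2]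

variable {R : Type x} [CommRing R] {W : Type w} [AddCommGroup W] [Module R W] (cls : N →+ W)
  (hker : ∀ z, cls z = 0 ↔ z ∈ maximalIdeal A • (⊤ : Submodule A N))
  (d X1 X2 : N →ₗ[A] N) (hmin : ∀ z, d z ∈ maximalIdeal A • (⊤ : Submodule A N))
  (t1 t2 : R) (hX1 : ∀ z, cls (X1 z) = t1 • cls z) (hX2 : ∀ z, cls (X2 z) = t2 • cls z)

include hker hmin hX1 hX2

theorem mem_Zg (z : N × N × N) :
    z ∈ Zg (dP d X1 X2) ↔ t1 • cls z.2.2 = 0 ∧ t2 • cls z.2.2 = 0 := by
  show dP d X1 X2 z ∈ maximalIdeal A • (⊤ : Submodule A (N × N × N)) ↔ _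
  rw [prod_mem, dP_apply]
  show d z.1 - X2 z.2.2 ∈ _ ∧ d z.2.1 + X1 z.2.2 ∈ _ ∧ - d z.2.2 ∈ _ ↔ _
  rw [← hker, ← hker, ← hker, map_sub, map_add, map_neg, (hker _).2 (hmin _), (hker _).2 (hmin _),
    (hker _).2 (hmin _), hX1, hX2]
  simp only [zero_sub, neg_eq_zero, zero_add, and_true]
  rw [and_comm]

theorem mem_Bg (z : N × N × N) (hsurj : Function.Surjective cls) :
    z ∈ Bg (dP d X1 X2) ↔ ∃ y : W, cls z.1 = -(t2 • y) ∧ cls z.2.1 = t1 • y ∧ cls z.2.2 = 0 := by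
  show z ∈ LinearMap.range (dP d X1 X2) ⊔ maximalIdeal A • (⊤ : Submodule A (N × N × N)) ↔ _
  rw [Submodule.mem_sup]
  constructor
  · rintro ⟨y, ⟨w, rfl⟩, m, hm, rfl⟩
    rw [prod_mem] at hm
    obtain ⟨hm1, hm2, hm3⟩ := hm
    rw [← hker] at hm1 hm2 hm3
    refine ⟨cls w.2.2, ?_, ?_, ?_⟩
    · show cls ((d w.1 - X2 w.2.2) + m.1) = _
      rw [map_add, map_sub, (hker _).2 (hmin _), hX2, hm1]
      abel
    · show cls ((d w.2.1 + X1 w.2.2) + m.2.1) = _
      rw [map_add, map_add, (hker _).2 (hmin _), hX1, hm2]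
      abel
    · show cls (- d w.2.2 + m.2.2) = _
      rw [map_add, map_neg, (hker _).2 (hmin _), hm3]
      abel
  · rintro ⟨y, h1, h2, h3⟩
    obtain ⟨w, rfl⟩ := hsurj y
    refine ⟨dP d X1 X2 (0, 0, w), ⟨_, rfl⟩, z - dP d X1 X2 (0, 0, w), ?_, by abel⟩
    rw [prod_mem, ← hker, ← hker, ← hker, dP_apply]
    refine ⟨?_, ?_, ?_⟩
    · show cls (z.1 - (d 0 - X2 w)) = 0
      rw [map_sub, map_sub, map_zero, map_zero, hX2, h1]
      abel
    · show cls (z.2.1 - (d 0 + X1 w)) = 0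
      rw [map_sub, map_add, map_zero, map_zero, hX1, h2]
      abel
    · show cls (z.2.2 - (- d w)) = 0
      rw [map_sub, map_neg, (hker _).2 (hmin _), h3]
      abel

theorem mk_eq (hsurj : Function.Surjective cls) (z z' : Zg (dP d X1 X2))
    (h1 : cls z.1.1 = cls z'.1.1) (h2 : cls z.1.2.1 = cls z'.1.2.1)
    (h3 : cls z.1.2.2 = cls z'.1.2.2) :
    (Submodule.Quotient.mk z : Vg (dP d X1 X2)) = Submodule.Quotient.mk z' := by
  rw [Submodule.Quotient.eq]
  show (z.1 - z'.1) ∈ Bg (dP d X1 X2)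
  rw [mem_Bg cls hker d X1 X2 hmin t1 t2 hX1 hX2 _ hsurj]
  refine ⟨0, ?_, ?_, ?_⟩
  · show cls (z.1.1 - z'.1.1) = _
    rw [map_sub, h1, sub_self, smul_zero, neg_zero]
  · show cls (z.1.2.1 - z'.1.2.1) = _
    rw [map_sub, h2, sub_self, smul_zero]
  · show cls (z.1.2.2 - z'.1.2.2) = _
    rw [map_sub, h3, sub_self]

theorem mk_eq_zero (hsurj : Function.Surjective cls) (z : Zg (dP d X1 X2)) :
    (Submodule.Quotient.mk z : Vg (dP d X1 X2)) = 0 ↔
      ∃ y : W, cls z.1.1 = -(t2 • y) ∧ cls z.1.2.1 = t1 • y ∧ cls z.1.2.2 = 0 := by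
  rw [Submodule.Quotient.mk_eq_zero]
  show z.1 ∈ Bg (dP d X1 X2) ↔ _
  rw [mem_Bg cls hker d X1 X2 hmin t1 t2 hX1 hX2 _ hsurj]

theorem exists_Hh (hsurj : Function.Surjective cls) (al1 al2 ps : N →ₗ[A] N)
    (hZ : ∀ z, (al1 z, al2 z, ps z) ∈ Zg (dP d X1 X2)) :
    ∃ Hh : W →+ Vg (dP d X1 X2), ∀ z,
      Hh (cls z) = Submodule.Quotient.mk ⟨(al1 z, al2 z, ps z), hZ z⟩ := by
  have hc : ∀ (f : N →ₗ[A] N) (z z' : N), cls z = cls z' → cls (f z) = cls (f z') := by
    intro f z z' h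
    have h1 : z - z' ∈ maximalIdeal A • (⊤ : Submodule A N) := by
      rw [← hker, map_sub, h, sub_self]
    have h2 := map_mem f h1
    rw [← hker, map_sub, map_sub, sub_eq_zero] at h2
    exact h2
  have hs : ∀ w, cls (Function.surjInv hsurj w) = w := Function.surjInv_eq hsurj
  refine ⟨AddMonoidHom.mk' (fun w => Submodule.Quotient.mk ⟨(al1 (Function.surjInv hsurj w),
    al2 (Function.surjInv hsurj w), ps (Function.surjInv hsurj w)), hZ _⟩) ?_, ?_⟩
  · intro w w'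
    rw [← Submodule.Quotient.mk_add]
    have h1 : cls (Function.surjInv hsurj (w + w')) =
        cls (Function.surjInv hsurj w + Function.surjInv hsurj w') := by
      rw [map_add, hs, hs, hs]
    refine mk_eq cls hker d X1 X2 hmin t1 t2 hX1 hX2 hsurj _ _ ?_ ?_ ?_
    · show cls (al1 _) = cls (al1 _ + al1 _)
      rw [← map_add]; exact hc al1 _ _ h1
    · show cls (al2 _) = cls (al2 _ + al2 _)
      rw [← map_add]; exact hc al2 _ _ h1
    · show cls (ps _) = cls (ps _ + ps _)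
      rw [← map_add]; exact hc ps _ _ h1
  · intro z
    exact mk_eq cls hker d X1 X2 hmin t1 t2 hX1 hX2 hsurj _ _ (hc al1 _ _ (hs _))
      (hc al2 _ _ (hs _)) (hc ps _ _ (hs _))

theorem zero_mem_Zg (u v : N) : (u, v, (0 : N)) ∈ Zg (dP d X1 X2) := by
  rw [mem_Zg cls hker d X1 X2 hmin t1 t2 hX1 hX2]
  show t1 • cls 0 = 0 ∧ t2 • cls 0 = 0
  rw [map_zero, smul_zero, smul_zero]
  exact ⟨rfl, rfl⟩

theorem exists_iota (hsurj : Function.Surjective cls) :
    ∃ ι : W × W →+ Vg (dP d X1 X2), ∀ (u v : N) (h : (u, v, (0 : N)) ∈ Zg (dP d X1 X2)),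
      ι (cls u, cls v) = Submodule.Quotient.mk ⟨(u, v, 0), h⟩ := by
  have hZ := zero_mem_Zg cls hker d X1 X2 hmin t1 t2 hX1 hX2
  have hs : ∀ w, cls (Function.surjInv hsurj w) = w := Function.surjInv_eq hsurj
  refine ⟨AddMonoidHom.mk' (fun w => Submodule.Quotient.mk ⟨(Function.surjInv hsurj w.1,
    Function.surjInv hsurj w.2, 0), hZ _ _⟩) ?_, ?_⟩
  · intro w w'
    rw [← Submodule.Quotient.mk_add]
    refine mk_eq cls hker d X1 X2 hmin t1 t2 hX1 hX2 hsurj _ _ ?_ ?_ ?_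
    · show cls (Function.surjInv hsurj (w.1 + w'.1)) =
        cls (Function.surjInv hsurj w.1 + Function.surjInv hsurj w'.1)
      rw [map_add, hs, hs, hs]
    · show cls (Function.surjInv hsurj (w.2 + w'.2)) =
        cls (Function.surjInv hsurj w.2 + Function.surjInv hsurj w'.2)
      rw [map_add, hs, hs, hs]
    · show cls 0 = cls (0 + 0)
      rw [add_zero]
  · intro u v h
    exact mk_eq cls hker d X1 X2 hmin t1 t2 hX1 hX2 hsurj _ _ (hs _) (hs _) rfl

theorem exists_theta (hsurj : Function.Surjective cls) :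
    ∃ θ : Vg (dP d X1 X2) →+ W, ∀ z : Zg (dP d X1 X2),
      θ (Submodule.Quotient.mk z) = cls z.1.2.2 := by
  have hq : Function.Surjective (Submodule.Quotient.mk : Zg (dP d X1 X2) → Vg (dP d X1 X2)) :=
    Submodule.mkQ_surjective _
  have hs : ∀ y, (Submodule.Quotient.mk (Function.surjInv hq y) : Vg (dP d X1 X2)) = y :=
    Function.surjInv_eq hq
  have hc : ∀ z z' : Zg (dP d X1 X2), (Submodule.Quotient.mk z : Vg (dP d X1 X2)) =
      Submodule.Quotient.mk z' → cls z.1.2.2 = cls z'.1.2.2 := by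
    intro z z' h
    rw [← sub_eq_zero, ← Submodule.Quotient.mk_sub,
      mk_eq_zero cls hker d X1 X2 hmin t1 t2 hX1 hX2 hsurj] at h
    obtain ⟨y, -, -, h3⟩ := h
    have h4 : cls (z.1.2.2 - z'.1.2.2) = 0 := h3
    rwa [map_sub, sub_eq_zero] at h4
  refine ⟨AddMonoidHom.mk' (fun y => cls (Function.surjInv hq y).1.2.2) ?_, ?_⟩
  · intro y y'
    show cls (Function.surjInv hq (y + y')).1.2.2 =
      cls (Function.surjInv hq y).1.2.2 + cls (Function.surjInv hq y').1.2.2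
    rw [← map_add]
    refine (hc _ (Function.surjInv hq y + Function.surjInv hq y') ?_)
    rw [Submodule.Quotient.mk_add, hs, hs, hs]
  · intro z
    exact hc _ _ (hs _)

omit hX1 hX2 hmin in
theorem exists_lin (hsurj : Function.Surjective cls) (f : N →ₗ[A] N) :
    ∃ F : W →+ W, ∀ z, F (cls z) = cls (f z) := by
  have hc : ∀ (z z' : N), cls z = cls z' → cls (f z) = cls (f z') := by
    intro z z' h
    have h1 : z - z' ∈ maximalIdeal A • (⊤ : Submodule A N) := by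
      rw [← hker, map_sub, h, sub_self]
    have h2 := map_mem f h1
    rw [← hker, map_sub, map_sub, sub_eq_zero] at h2
    exact h2
  have hs : ∀ w, cls (Function.surjInv hsurj w) = w := Function.surjInv_eq hsurj
  refine ⟨AddMonoidHom.mk' (fun w => cls (f (Function.surjInv hsurj w))) ?_, ?_⟩
  · intro w w'
    show cls (f _) = cls (f _) + cls (f _)
    rw [← map_add, ← map_add]
    refine hc _ _ ?_
    rw [map_add, hs, hs, hs]
  · intro z
    exact hc _ _ (hs _)

end gen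

/-- the homogeneous component of degree `i` of `M'` -/
def Gr {A : Type u} {B : Type v} [CommRing A] [CommRing B] [Algebra A B] {p : ℕ}
    (H : HA.{u, v, w} A B p) (i : ℕ) : AddSubgroup (H.M × H.M × H.M) where
  carrier := {z | H.pr i z.1 = z.1 ∧ H.pr i z.2.1 = z.2.1 ∧
    (∀ k, i = k + 1 → H.pr k z.2.2 = z.2.2) ∧ (i = 0 → z.2.2 = 0)}
  add_mem' := by
    rintro z z' ⟨h1, h2, h3, h4⟩ ⟨h1', h2', h3', h4'⟩
    refine ⟨?_, ?_, fun k hk => ?_, fun hi => ?_⟩
    · show H.pr i (z.1 + z'.1) = z.1 + z'.1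
      rw [map_add, h1, h1']
    · show H.pr i (z.2.1 + z'.2.1) = z.2.1 + z'.2.1
      rw [map_add, h2, h2']
    · show H.pr k (z.2.2 + z'.2.2) = z.2.2 + z'.2.2
      rw [map_add, h3 k hk, h3' k hk]
    · show z.2.2 + z'.2.2 = 0
      rw [h4 hi, h4' hi, add_zero]
  zero_mem' := by
    refine ⟨?_, ?_, fun k hk => ?_, fun hi => rfl⟩
    · exact map_zero _
    · exact map_zero _
    · exact map_zero _
  neg_mem' := by
    rintro z ⟨h1, h2, h3, h4⟩
    refine ⟨?_, ?_, fun k hk => ?_, fun hi => ?_⟩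
    · show H.pr i (-z.1) = -z.1
      rw [map_neg, h1]
    · show H.pr i (-z.2.1) = -z.2.1
      rw [map_neg, h2]
    · show H.pr k (-z.2.2) = -z.2.2
      rw [map_neg, h3 k hk]
    · show -z.2.2 = 0
      rw [h4 hi, neg_zero]

theorem exists_gr {A : Type u} {B : Type v} [CommRing A] [IsLocalRing A] [CommRing B]
    [Algebra A B] {p : ℕ} (H : HA.{u, v, w} A B p)
    (D : (H.M × H.M × H.M) →ₗ[A] (H.M × H.M × H.M)) (i : ℕ) :
    ∃ G : AddSubgroup (Vg D), ∀ y, y ∈ G ↔ ∃ z : Zg D, y = Submodule.Quotient.mk z ∧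
      z.1 ∈ Gr H i := by
  refine ⟨((Gr H i).comap (Zg D).subtype.toAddMonoidHom).map
    (Submodule.mkQ ((Bg D).comap (Zg D).subtype)).toAddMonoidHom, fun y => ?_⟩
  rw [AddSubgroup.mem_map]
  constructor
  · rintro ⟨z, hz, rfl⟩
    exact ⟨z, rfl, hz⟩
  · rintro ⟨z, rfl, hz⟩
    exact ⟨z, hz, rfl⟩

/-- reindexing of a sum over `J` -/
theorem sum_emb {A : Type u} [CommRing A] {N : Type w} [AddCommGroup N] [Module A N] {e0 : ℕ}
    (a : Fin e0 → A) {J : Type} [Fintype J] (emb : J → Fin e0) (hemb : Function.Injective emb)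
    (g : J → N) : ∃ G : Fin e0 → N, ∑ j, a (emb j) • g j = ∑ l, a l • G l ∧
      ∀ j, G (emb j) = g j := by
  classical
  refine ⟨fun l => ∑ j, if emb j = l then g j else 0, ?_, ?_⟩
  · simp_rw [Finset.smul_sum]
    rw [Finset.sum_comm]
    refine Finset.sum_congr rfl fun j _ => ?_
    rw [Finset.sum_eq_single (emb j)]
    · rw [if_pos rfl]
    · intro l _ hl
      rw [if_neg (Ne.symm hl), smul_zero]
    · intro h
      exact absurd (Finset.mem_univ _) h
  · intro j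
    show (∑ j', if emb j' = emb j then g j' else 0) = g j
    rw [Finset.sum_eq_single j]
    · rw [if_pos rfl]
    · intro j' _ hj'
      rw [if_neg (fun h => hj' (hemb h))]
    · intro h
      exact absurd (Finset.mem_univ _) h

/-- the terms with the `b i` -/
theorem sum_b {A : Type u} [CommRing A] [IsLocalRing A] {N : Type w} [AddCommGroup N] [Module A N]
    {e0 : ℕ} (a : Fin e0 → A) {s0 : ℕ} (b : Fin s0 → A) {J : Type} (emb : J → Fin e0)
    (hbc : ∀ i, ∃ c : Fin e0 → A, b i = ∑ l, c l * a l ∧ ∀ j, c (emb j) ∈ maximalIdeal A)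
    (g : Fin s0 → N) : ∃ G : Fin e0 → N, ∑ i, b i • g i = ∑ l, a l • G l ∧
      ∀ j, G (emb j) ∈ maximalIdeal A • (⊤ : Submodule A N) := by
  choose c hc1 hc2 using hbc
  refine ⟨fun l => ∑ i, c i l • g i, ?_, ?_⟩
  · simp_rw [Finset.smul_sum]
    rw [Finset.sum_comm]
    refine Finset.sum_congr rfl fun i _ => ?_
    rw [hc1 i, Finset.sum_smul]
    refine Finset.sum_congr rfl fun l _ => ?_
    rw [smul_smul, mul_comm]
  · intro j
    exact Submodule.sum_mem _ fun i _ => Submodule.smul_mem_smul (hc2 i j) trivial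

/-- the homotopies of degree one for the H-operators -/
theorem exists_al (hHTP : G_HTP.{u, v, w}) {A : Type u} {B : Type v} [CommRing A] [CommRing B]
    [Algebra A B] {p : ℕ} (H : HA.{u, v, w} A B p) {e0 s0 : ℕ} (a : Fin e0 → A) (b : Fin s0 → A)
    {J : Type} [Fintype J] (emb : J → Fin e0) (c : J → B) (T ps : B) (ε : A) (r : Fin s0 → B)
    (h : ∑ l, algebraMap A B (a (emb l)) * c l + algebraMap A B ε * (T * ps) =
      ∑ i, algebraMap A B (b i) * r i) :
    ∃ al : H.M →ₗ[A] H.M, (∀ i z, al (H.pr i z) = H.pr (i + 1) (al z)) ∧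
      ∀ z, H.d (al z) + al (H.d z) = ∑ l, a (emb l) • H.ρ (c l) z + ε • H.ρ T (H.ρ ps z) -
        ∑ i, b i • H.ρ (r i) z := by
  obtain ⟨al, h1, h2⟩ := hHTP A B p H (Fin 1) (J ⊕ Fin s0) (fun _ => ε) (fun _ => T)
    (fun _ => ps) (Sum.elim (fun l => a (emb l)) (fun i => -b i)) (Sum.elim c r) 0 (by
      rw [Fintype.sum_sum_type, Fin.sum_univ_one, map_zero, add_zero]
      simp only [Sum.elim_inl, Sum.elim_inr, map_neg, neg_mul, Finset.sum_neg_distrib]
      rw [← h]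
      ring)
  refine ⟨al, h1, fun z => ?_⟩
  rw [← h2 z]
  simp only [Fintype.sum_sum_type, Fin.sum_univ_one, Sum.elim_inl, Sum.elim_inr, zero_smul,
    add_zero, LinearMap.add_apply, LinearMap.sum_apply, LinearMap.smul_apply,
    LinearMap.comp_apply, neg_smul, Finset.sum_neg_distrib, LinearMap.neg_apply]
  abel

theorem exists_s (hHTP : G_HTP.{u, v, w}) {A : Type u} {B : Type v} [CommRing A] [CommRing B]
    [Algebra A B] {p : ℕ} (H : HA.{u, v, w} A B p) (T1 T2 : B) :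
    ∃ s : H.M →ₗ[A] H.M, (∀ i z, s (H.pr i z) = H.pr (i + 1) (s z)) ∧
      ∀ z, H.d (s z) + s (H.d z) = H.ρ T1 (H.ρ T2 z) - H.ρ T2 (H.ρ T1 z) := by
  obtain ⟨s, h1, h2⟩ := hHTP A B p H (Fin 2) (Fin 0) ![1, -1] ![T1, T2] ![T2, T1]
    (fun _ => 0) (fun _ => 0) 0 (by
      rw [Fin.sum_univ_two, Fin.sum_univ_zero, map_zero, add_zero, add_zero]
      simp only [Matrix.cons_val_zero, Matrix.cons_val_one, map_one, map_neg]
      ring)
  refine ⟨s, h1, fun z => ?_⟩
  rw [← h2 z]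
  simp only [Fin.sum_univ_two, Fin.sum_univ_zero, Matrix.cons_val_zero, Matrix.cons_val_one,
    zero_smul, add_zero, LinearMap.add_apply, LinearMap.comp_apply,
    neg_smul, one_smul, LinearMap.neg_apply]
  abel

theorem gBUILD2 : G_BUILD2.{u, v, w, x} := by
  intro hHTP hGV A _ _ B _ _ p H hMin e0 a ha s0 b hb J _ emb hemb hbc R _ q t1 t2 f1 f2 hq S cls hC
  -- lifts
  obtain ⟨lift, hlift⟩ : ∃ lift : R → B, ∀ g, q g = Ideal.Quotient.mk (blk B b) (lift g) := by
    choose lift hlift using fun g : R => Ideal.Quotient.mk_surjective (q g)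
    exact ⟨lift, fun g => (hlift g).symm⟩
  have hsm : ∀ g z, cls (H.ρ (lift g) z) = g • cls z := fun g z => (hC.smul g _ z (hlift g)).symm
  obtain ⟨X1, hX1e⟩ : ∃ X, X = H.ρ (lift t1) := ⟨_, rfl⟩
  obtain ⟨X2, hX2e⟩ : ∃ X, X = H.ρ (lift t2) := ⟨_, rfl⟩
  have hX1 : ∀ z, cls (X1 z) = t1 • cls z := by rw [hX1e]; exact hsm t1
  have hX2 : ∀ z, cls (X2 z) = t2 • cls z := by rw [hX2e]; exact hsm t2
  have hX1d : ∀ z, H.d (X1 z) = X1 (H.d z) := by rw [hX1e]; exact H.ρ_d _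
  have hX2d : ∀ z, H.d (X2 z) = X2 (H.d z) := by rw [hX2e]; exact H.ρ_d _
  have hX1p : ∀ i z, X1 (H.pr i z) = H.pr i (X1 z) := by rw [hX1e]; exact H.ρ_pr _
  have hX2p : ∀ i z, X2 (H.pr i z) = H.pr i (X2 z) := by rw [hX2e]; exact H.ρ_pr _
  have hsurj := hC.surj
  have hker := hC.ker
  have hmem : ∀ z, z ∈ maximalIdeal A • (⊤ : Submodule A H.M) →
      ∃ y : Fin e0 → H.M, z = ∑ l, a l • y l := fun z hz => exp_of_mem a ha.1 z hz
  -- `f l` acts as zero
  have hf0 : ∀ l (w : S.W), (t1 * f1 l + t2 * f2 l) • w = 0 := by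
    intro l w
    obtain ⟨z, rfl⟩ := hsurj w
    rw [hC.smul _ _ z (hq l), hker]
    obtain ⟨η, -, hη⟩ := H.alg (a (emb l))
    have e : H.ρ (algebraMap A B (a (emb l))) z = a (emb l) • z + (H.d (η z) + η (H.d z)) := by
      rw [← hη]; abel
    rw [e]
    refine add_mem (Submodule.smul_mem_smul ?_ trivial) (add_mem (hMin _) (map_mem η (hMin z)))
    rw [← ha.1]; exact Ideal.subset_span ⟨_, rfl⟩
  have hsyz : ∀ (c : J → R) (g : R), ∑ l, c l * (t1 * f1 l + t2 * f2 l) = g →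
      ∀ w : S.W, g • w = 0 := by
    rintro c g rfl w
    rw [Finset.sum_smul]
    refine Finset.sum_eq_zero fun l _ => ?_
    rw [mul_smul, hf0, smul_zero]
  -- the class of a homogeneous element
  have hgrp : ∀ i z, cls (H.pr i z) ∈ S.gr i := fun i z => (hC.gr i _).2 ⟨z, rfl⟩
  have hprc : ∀ i z, cls z ∈ S.gr i → cls (H.pr i z) = cls z := by
    intro i z hz
    obtain ⟨y, hy⟩ := (hC.gr i _).1 hz
    have h1 : z - H.pr i y ∈ maximalIdeal A • (⊤ : Submodule A H.M) := by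
      rw [← hker, map_sub, hy, sub_self]
    have h2 := map_mem (H.pr i) h1
    rw [← hker, map_sub, map_sub, H.pr_pr, sub_eq_zero] at h2
    rw [h2, hy]
  -- the complex `M'`
  obtain ⟨d', hd'⟩ : ∃ d', d' = dP H.d X1 X2 := ⟨_, rfl⟩
  have hdd : ∀ z, d' (d' z) = 0 := by
    rw [hd']; exact dP_dP H.d X1 X2 H.dd hX1d hX2d
  obtain ⟨D, hD⟩ := hGV A e0 a ha (H.M × H.M × H.M) d' hdd
  obtain ⟨ι, hι⟩ : ∃ ι : S.W × S.W →+ Vg d', ∀ (u v : H.M) (h : (u, v, (0 : H.M)) ∈ Zg d'),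
      ι (cls u, cls v) = Submodule.Quotient.mk ⟨(u, v, 0), h⟩ := by
    rw [hd']; exact exists_iota cls hker H.d X1 X2 hMin t1 t2 hX1 hX2 hsurj
  obtain ⟨θ, hθ⟩ : ∃ θ : Vg d' →+ S.W, ∀ z : Zg d',
      θ (Submodule.Quotient.mk z) = cls z.1.2.2 := by
    rw [hd']; exact exists_theta cls hker H.d X1 X2 hMin t1 t2 hX1 hX2 hsurj
  choose gr' hgr' using fun i => exists_gr H d' i
  have hZ0 : ∀ u v : H.M, (u, v, (0 : H.M)) ∈ Zg d' := by
    rw [hd']; exact zero_mem_Zg cls hker H.d X1 X2 hMin t1 t2 hX1 hX2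
  have hZg : ∀ z : H.M × H.M × H.M, z ∈ Zg d' ↔ t1 • cls z.2.2 = 0 ∧ t2 • cls z.2.2 = 0 := by
    rw [hd']; exact mem_Zg cls hker H.d X1 X2 hMin t1 t2 hX1 hX2
  have hmk : ∀ z z' : Zg d', cls z.1.1 = cls z'.1.1 → cls z.1.2.1 = cls z'.1.2.1 →
      cls z.1.2.2 = cls z'.1.2.2 →
      (Submodule.Quotient.mk z : Vg d') = Submodule.Quotient.mk z' := by
    rw [hd']; exact mk_eq cls hker H.d X1 X2 hMin t1 t2 hX1 hX2 hsurj
  have hmk0 : ∀ z : Zg d', (Submodule.Quotient.mk z : Vg d') = 0 ↔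
      ∃ y : S.W, cls z.1.1 = -(t2 • y) ∧ cls z.1.2.1 = t1 • y ∧ cls z.1.2.2 = 0 := by
    rw [hd']; exact mk_eq_zero cls hker H.d X1 X2 hMin t1 t2 hX1 hX2 hsurj
  have hdap : ∀ z, d' z = (H.d z.1 - X2 z.2.2, H.d z.2.1 + X1 z.2.2, - H.d z.2.2) := by
    rw [hd']; exact dP_apply H.d X1 X2
  obtain ⟨s, hs1, hs2⟩ := exists_s hHTP H (lift t1) (lift t2)
  simp only [← hX1e, ← hX2e] at hs2
  refine ⟨{
      toSys1 := S
      W' := Vg d'
      gr' := gr'
      D' := fun j => (D (emb j)).toAddMonoidHom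
      ι := ι
      θ := θ
      ι_D := ?_
      ι_ker := ?_
      θ_ker := ?_
      hop := ?_ }, rfl⟩
  · -- ι_D
    intro j u v
    obtain ⟨z1, rfl⟩ := hsurj u
    obtain ⟨z2, rfl⟩ := hsurj v
    obtain ⟨y1, hy1⟩ := hmem _ (hMin z1)
    obtain ⟨y2, hy2⟩ := hmem _ (hMin z2)
    rw [hC.D z1 y1 hy1, hC.D z2 y2 hy2, hι z1 z2 (hZ0 _ _), hι _ _ (hZ0 _ _)]
    obtain ⟨hy, h⟩ := hD ⟨(z1, z2, 0), hZ0 _ _⟩ (fun l => (y1 l, y2 l, 0)) (by
      rw [hdap]
      refine Prod.ext ?_ (Prod.ext ?_ ?_)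
      · show H.d z1 - X2 0 = (∑ l, a l • ((y1 l, y2 l, 0) : H.M × H.M × H.M)).1
        rw [Prod.fst_sum, map_zero, sub_zero, hy1]
        rfl
      · show H.d z2 + X1 0 = (∑ l, a l • ((y1 l, y2 l, 0) : H.M × H.M × H.M)).2.1
        rw [Prod.snd_sum, Prod.fst_sum, map_zero, add_zero, hy2]
        rfl
      · show - H.d 0 = (∑ l, a l • ((y1 l, y2 l, 0) : H.M × H.M × H.M)).2.2
        rw [Prod.snd_sum, Prod.snd_sum, map_zero, neg_zero]
        symm
        refine Finset.sum_eq_zero fun l _ => ?_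
        exact smul_zero _) (emb j)
    exact h
  · -- ι_ker
    intro i u hu v hv h
    obtain ⟨z1, rfl⟩ := hsurj u
    obtain ⟨z2, rfl⟩ := hsurj v
    rw [hι z1 z2 (hZ0 _ _), hmk0] at h
    obtain ⟨y, h1, h2, -⟩ := h
    obtain ⟨w, rfl⟩ := hsurj y
    have h1' : cls z1 = -(t2 • cls w) := h1
    have h2' : cls z2 = t1 • cls w := h2
    refine ⟨cls (H.pr i w), hgrp i w, ?_, ?_⟩
    · have h3 : cls z1 = cls (-(X2 w)) := by rw [h1', map_neg, hX2]
      rw [h3] at hu
      rw [h3, ← hprc i _ hu, map_neg, map_neg, ← hX2p, hX2]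
    · have h3 : cls z2 = cls (X1 w) := by rw [h2', hX1]
      rw [h3] at hv
      rw [h3, ← hprc i _ hv, ← hX1p, hX1]
  · -- θ_ker
    intro i y hy h
    obtain ⟨z, rfl, hz1, hz2, hz3, hz4⟩ := (hgr' i y).1 hy
    rw [hθ] at h
    refine ⟨cls z.1.1, ?_, cls z.1.2.1, ?_, ?_⟩
    · rw [← hz1]; exact hgrp i _
    · rw [← hz2]; exact hgrp i _
    · rw [hι _ _ (hZ0 _ _)]
      refine hmk _ _ rfl rfl ?_
      show cls z.1.2.2 = cls 0
      rw [h, map_zero]
  · -- hop
    intro c1 c2 ps hc1 hc2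
    have hps1 : ∀ w : S.W, (t1 * ps) • w = 0 := hsyz c2 _ hc2
    have hps2 : ∀ w : S.W, (t2 * ps) • w = 0 := by
      intro w
      have h := hsyz c1 _ hc1 w
      rwa [neg_smul, neg_eq_zero] at h
    -- the relations in `B`
    have hr1 : ∃ r : Fin s0 → B, ∑ l, algebraMap A B (a (emb l)) * lift (c1 l) +
        algebraMap A B 1 * (lift t2 * lift ps) = ∑ i, algebraMap A B (b i) * r i := by
      have h1 : Ideal.Quotient.mk (blk B b) (∑ l, algebraMap A B (a (emb l)) * lift (c1 l) +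
          algebraMap A B 1 * (lift t2 * lift ps)) = 0 := by
        rw [map_one, one_mul, map_add, map_sum, map_mul, ← hlift, ← hlift, ← map_mul]
        have h2 : ∑ l, Ideal.Quotient.mk (blk B b) (algebraMap A B (a (emb l)) * lift (c1 l)) =
            q (∑ l, c1 l * (t1 * f1 l + t2 * f2 l)) := by
          rw [map_sum]
          refine Finset.sum_congr rfl fun l _ => ?_
          rw [map_mul, map_mul, ← hlift, hq, mul_comm]
        rw [h2, hc1, map_neg, neg_add_cancel]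
      rw [Ideal.Quotient.eq_zero_iff_mem] at h1
      obtain ⟨r, hr⟩ := Ideal.mem_span_range_iff_exists_fun.1 h1
      refine ⟨r, ?_⟩
      rw [← hr]
      refine Finset.sum_congr rfl fun i _ => mul_comm _ _
    have hr2 : ∃ r : Fin s0 → B, ∑ l, algebraMap A B (a (emb l)) * lift (c2 l) +
        algebraMap A B (-1) * (lift t1 * lift ps) = ∑ i, algebraMap A B (b i) * r i := by
      have h1 : Ideal.Quotient.mk (blk B b) (∑ l, algebraMap A B (a (emb l)) * lift (c2 l) +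
          algebraMap A B (-1) * (lift t1 * lift ps)) = 0 := by
        rw [map_neg, map_one, neg_mul, one_mul, map_add, map_sum, map_neg, map_mul (Ideal.Quotient.mk _) (lift t1),
          ← hlift, ← hlift, ← map_mul]
        have h2 : ∑ l, Ideal.Quotient.mk (blk B b) (algebraMap A B (a (emb l)) * lift (c2 l)) =
            q (∑ l, c2 l * (t1 * f1 l + t2 * f2 l)) := by
          rw [map_sum]
          refine Finset.sum_congr rfl fun l _ => ?_
          rw [map_mul, map_mul, ← hlift, hq, mul_comm]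
        rw [h2, hc2, add_neg_cancel]
      rw [Ideal.Quotient.eq_zero_iff_mem] at h1
      obtain ⟨r, hr⟩ := Ideal.mem_span_range_iff_exists_fun.1 h1
      refine ⟨r, ?_⟩
      rw [← hr]
      refine Finset.sum_congr rfl fun i _ => mul_comm _ _
    obtain ⟨r1, hr1⟩ := hr1
    obtain ⟨r2, hr2⟩ := hr2
    obtain ⟨al1, ha1, hal1⟩ := exists_al hHTP H a b emb (fun l => lift (c1 l)) (lift t2) (lift ps) 1
      r1 hr1
    obtain ⟨al2, ha2, hal2⟩ := exists_al hHTP H a b emb (fun l => lift (c2 l)) (lift t1) (lift ps)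
      (-1) r2 hr2
    rw [← hX1e] at hal2
    rw [← hX2e] at hal1
    simp only [one_smul] at hal1
    simp only [neg_smul, one_smul] at hal2
    obtain ⟨P, hPe⟩ : ∃ P, P = H.ρ (lift ps) := ⟨_, rfl⟩
    rw [← hPe] at hal1 hal2
    have hP : ∀ z, cls (P z) = ps • cls z := by rw [hPe]; exact hsm ps
    have hPp : ∀ i z, P (H.pr i z) = H.pr i (P z) := by rw [hPe]; exact H.ρ_pr _
    have hPd : ∀ z, H.d (P z) = P (H.d z) := by rw [hPe]; exact H.ρ_d _
    have hZ : ∀ z, (al1 z, al2 z, P z) ∈ Zg d' := by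
      intro z
      rw [hZg]
      show t1 • cls (P z) = 0 ∧ t2 • cls (P z) = 0
      rw [hP, smul_smul, smul_smul]
      exact ⟨hps1 _, hps2 _⟩
    obtain ⟨Hh, hHh⟩ : ∃ Hh : S.W →+ Vg d', ∀ z,
        Hh (cls z) = Submodule.Quotient.mk ⟨(al1 z, al2 z, P z), hZ z⟩ := by
      subst hd'
      exact exists_Hh cls hker H.d X1 X2 hMin t1 t2 hX1 hX2 hsurj al1 al2 P hZ
    obtain ⟨F, hF⟩ := exists_lin cls hker hsurj (X1 ∘ₗ al1 + X2 ∘ₗ al2 - s ∘ₗ P)
    have hF' : ∀ z, F (cls z) = cls (X1 (al1 z) + X2 (al2 z) - s (P z)) := hF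
    have hszero : ∀ z, ps • cls z = 0 → cls (s (P z)) = 0 := by
      intro z hz
      rw [← hP, hker] at hz
      rw [hker]; exact map_mem s hz
    refine ⟨Hh, F, ?_, ?_, ?_, ?_, ?_, ?_, ?_⟩
    · -- degree of `Hh`
      intro i y hy
      obtain ⟨z, rfl⟩ := (hC.gr i y).1 hy
      rw [hHh, hgr']
      refine ⟨_, rfl, ?_, ?_, ?_, ?_⟩
      · show H.pr (i + 1) (al1 (H.pr i z)) = al1 (H.pr i z)
        rw [ha1, H.pr_pr]
      · show H.pr (i + 1) (al2 (H.pr i z)) = al2 (H.pr i z)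
        rw [ha2, H.pr_pr]
      · intro k hk
        obtain rfl : i = k := by omega
        show H.pr i (P (H.pr i z)) = P (H.pr i z)
        rw [hPp, H.pr_pr]
      · intro h0; omega
    · -- degree of `F`
      intro i y hy
      obtain ⟨z, rfl⟩ := (hC.gr i y).1 hy
      rw [hF', ha1, ha2, hPp, hs1, hX1p, hX2p, ← map_add, ← map_sub]
      exact hgrp _ _
    · -- `D' Hh + Hh D`
      intro j y
      obtain ⟨z, rfl⟩ := hsurj y
      obtain ⟨y1, hy1⟩ := hmem _ (hMin z)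
      obtain ⟨G1, hG1, hG1'⟩ := sum_emb a emb hemb (fun l => H.ρ (lift (c1 l)) z)
      obtain ⟨G2, hG2, hG2'⟩ := sum_emb a emb hemb (fun l => H.ρ (lift (c2 l)) z)
      obtain ⟨E1, hE1, hE1'⟩ := sum_b a b emb hbc (fun i => H.ρ (r1 i) z)
      obtain ⟨E2, hE2, hE2'⟩ := sum_b a b emb hbc (fun i => H.ρ (r2 i) z)
      obtain ⟨hyy, h⟩ := hD ⟨(al1 z, al2 z, P z), hZ z⟩
        (fun l => (G1 l - E1 l - al1 (y1 l), G2 l - E2 l - al2 (y1 l), - P (y1 l))) (by
        rw [hdap]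
        refine Prod.ext ?_ (Prod.ext ?_ ?_)
        · show H.d (al1 z) - X2 (P z) = (∑ l, a l • ((G1 l - E1 l - al1 (y1 l),
            G2 l - E2 l - al2 (y1 l), - P (y1 l)) : H.M × H.M × H.M)).1
          rw [Prod.fst_sum]
          have e : H.d (al1 z) - X2 (P z) = ∑ l, a (emb l) • H.ρ (lift (c1 l)) z -
              ∑ i, b i • H.ρ (r1 i) z - al1 (H.d z) := by
            have := hal1 z
            rw [eq_sub_iff_add_eq.2 this]
            abel
          rw [e, hG1, hE1, hy1, map_sum, ← Finset.sum_sub_distrib, ← Finset.sum_sub_distrib]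
          refine Finset.sum_congr rfl fun l _ => ?_
          rw [map_smul, ← smul_sub, ← smul_sub]
          rfl
        · show H.d (al2 z) + X1 (P z) = (∑ l, a l • ((G1 l - E1 l - al1 (y1 l),
            G2 l - E2 l - al2 (y1 l), - P (y1 l)) : H.M × H.M × H.M)).2.1
          rw [Prod.snd_sum, Prod.fst_sum]
          have e : H.d (al2 z) + X1 (P z) = ∑ l, a (emb l) • H.ρ (lift (c2 l)) z -
              ∑ i, b i • H.ρ (r2 i) z - al2 (H.d z) := by
            have := hal2 z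
            rw [eq_sub_iff_add_eq.2 this]
            abel
          rw [e, hG2, hE2, hy1, map_sum, ← Finset.sum_sub_distrib, ← Finset.sum_sub_distrib]
          refine Finset.sum_congr rfl fun l _ => ?_
          rw [map_smul, ← smul_sub, ← smul_sub]
          rfl
        · show - H.d (P z) = (∑ l, a l • ((G1 l - E1 l - al1 (y1 l),
            G2 l - E2 l - al2 (y1 l), - P (y1 l)) : H.M × H.M × H.M)).2.2
          rw [Prod.snd_sum, Prod.snd_sum, hPd, hy1, map_sum, ← Finset.sum_neg_distrib]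
          refine Finset.sum_congr rfl fun l _ => ?_
          rw [map_smul, ← smul_neg]
          rfl) (emb j)
      rw [hHh, hC.D z y1 hy1, hHh, ← hsm, ← hsm, hι _ _ (hZ0 _ _)]
      show D (emb j) (Submodule.Quotient.mk _) + Submodule.Quotient.mk _ = _
      rw [h, ← Submodule.Quotient.mk_add]
      refine hmk _ _ ?_ ?_ ?_
      · show cls ((G1 (emb j) - E1 (emb j) - al1 (y1 (emb j))) + al1 (y1 (emb j))) =
          cls (H.ρ (lift (c1 j)) z)
        rw [sub_add_cancel, map_sub, (hker _).2 (hE1' j), sub_zero, hG1']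
      · show cls ((G2 (emb j) - E2 (emb j) - al2 (y1 (emb j))) + al2 (y1 (emb j))) =
          cls (H.ρ (lift (c2 j)) z)
        rw [sub_add_cancel, map_sub, (hker _).2 (hE2' j), sub_zero, hG2']
      · show cls (- P (y1 (emb j)) + P (y1 (emb j))) = cls 0
        rw [neg_add_cancel]
    · -- `D F + F D`
      intro j y
      obtain ⟨z, rfl⟩ := hsurj y
      obtain ⟨y1, hy1⟩ := hmem _ (hMin z)
      obtain ⟨G1, hG1, hG1'⟩ := sum_emb a emb hemb
        (fun l => X1 (H.ρ (lift (c1 l)) z) + X2 (H.ρ (lift (c2 l)) z))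
      obtain ⟨E1, hE1, hE1'⟩ := sum_b a b emb hbc (fun i => X1 (H.ρ (r1 i) z) + X2 (H.ρ (r2 i) z))
      have e : H.d (X1 (al1 z) + X2 (al2 z) - s (P z)) = ∑ l, a l • (G1 l - E1 l -
          (X1 (al1 (y1 l)) + X2 (al2 (y1 l)) - s (P (y1 l)))) := by
        have e1 := congrArg X1 (hal1 z)
        have e2 := congrArg X2 (hal2 z)
        have e3 := hs2 (P z)
        simp only [map_add, map_sub, map_neg] at e1 e2
        rw [map_sub, map_add, hX1d, hX2d]
        have e4 : ∑ l, a l • (G1 l - E1 l - (X1 (al1 (y1 l)) + X2 (al2 (y1 l)) - s (P (y1 l)))) =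
            ∑ l, a l • G1 l - ∑ l, a l • E1 l - (X1 (al1 (H.d z)) + X2 (al2 (H.d z)) -
              s (P (H.d z))) := by
          rw [hy1]
          simp only [map_sum, map_smul]
          rw [← Finset.sum_add_distrib, ← Finset.sum_sub_distrib, ← Finset.sum_sub_distrib,
            ← Finset.sum_sub_distrib]
          refine Finset.sum_congr rfl fun l _ => ?_
          rw [← smul_add, ← smul_sub, ← smul_sub, ← smul_sub]
        rw [e4, ← hG1, ← hE1]
        simp only [smul_add, Finset.sum_add_distrib]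
        have e5 : X1 (∑ l, a (emb l) • H.ρ (lift (c1 l)) z) =
            ∑ l, a (emb l) • X1 (H.ρ (lift (c1 l)) z) := by
          rw [map_sum]
          refine Finset.sum_congr rfl fun l _ => ?_
          rw [map_smul]
        have e6 : X2 (∑ l, a (emb l) • H.ρ (lift (c2 l)) z) =
            ∑ l, a (emb l) • X2 (H.ρ (lift (c2 l)) z) := by
          rw [map_sum]
          refine Finset.sum_congr rfl fun l _ => ?_
          rw [map_smul]
        have e7 : X1 (∑ i, b i • H.ρ (r1 i) z) = ∑ i, b i • X1 (H.ρ (r1 i) z) := by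
          rw [map_sum]
          refine Finset.sum_congr rfl fun l _ => ?_
          rw [map_smul]
        have e8 : X2 (∑ i, b i • H.ρ (r2 i) z) = ∑ i, b i • X2 (H.ρ (r2 i) z) := by
          rw [map_sum]
          refine Finset.sum_congr rfl fun l _ => ?_
          rw [map_smul]
        rw [← e5, ← e6, ← e7, ← e8]
        rw [hPd] at e3
        rw [eq_sub_iff_add_eq.2 e1, eq_sub_iff_add_eq.2 e2, eq_sub_iff_add_eq.2 e3]
        abel
      rw [hF', hC.D _ _ e, hC.D z y1 hy1, hF', ← map_add, sub_add_cancel, map_sub,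
        (hker _).2 (hE1' j), sub_zero, hG1', map_add, hX1, hX2, hsm, hsm, add_smul, mul_smul,
        mul_smul]
    · -- `θ Hh`
      intro y
      obtain ⟨z, rfl⟩ := hsurj y
      rw [hHh, hθ]
      exact hP z
    · -- `F (t1 a + t2 b)`
      intro i y hy y' hy'
      obtain ⟨z, rfl⟩ := (hC.gr i y).1 hy
      obtain ⟨z', rfl⟩ := (hC.gr i y').1 hy'
      have e : t1 • cls (H.pr i z) + t2 • cls (H.pr i z') = cls (H.pr i (X1 z + X2 z')) := by
        rw [map_add, ← hX1p, ← hX2p, map_add, hX1, hX2]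
      have e0 : ps • cls (H.pr i (X1 z + X2 z')) = 0 := by
        rw [← e, smul_add, smul_smul, smul_smul, mul_comm ps, mul_comm ps, hps1, hps2, add_zero]
      refine ⟨cls (al1 (H.pr i (X1 z + X2 z'))), ?_, cls (al2 (H.pr i (X1 z + X2 z'))), ?_, ?_⟩
      · rw [ha1]; exact hgrp _ _
      · rw [ha2]; exact hgrp _ _
      · rw [e, hF', map_sub, hszero _ e0, sub_zero, map_add, hX1, hX2]
    · -- `Hh (t1 a + t2 b)`
      intro y hy y' hy'
      obtain ⟨z, rfl⟩ := (hC.gr p y).1 hy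
      obtain ⟨z', rfl⟩ := (hC.gr p y').1 hy'
      have e : t1 • cls (H.pr p z) + t2 • cls (H.pr p z') = cls (H.pr p (X1 z + X2 z')) := by
        rw [map_add, ← hX1p, ← hX2p, map_add, hX1, hX2]
      have e0 : ps • cls (H.pr p (X1 z + X2 z')) = 0 := by
        rw [← e, smul_add, smul_smul, smul_smul, mul_comm ps, mul_comm ps, hps1, hps2, add_zero]
      rw [e, hHh, hmk0]
      refine ⟨0, ?_, ?_, ?_⟩
      · show cls (al1 (H.pr p _)) = _
        rw [ha1, H.pr_top (p + 1) (by omega), map_zero, smul_zero, neg_zero]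
      · show cls (al2 (H.pr p _)) = _
        rw [ha2, H.pr_top (p + 1) (by omega), map_zero, smul_zero]
      · show cls (P (H.pr p _)) = 0
        rw [hP]; exact e0

end Pool.Agent.Helper98.FB
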